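import Pool.Agent.Q116.C3S

/-!
# The variety generated by `C₃ˢ` has a finite equational basis

The 14 identities of `basis` (file `Pool/Agent/Q116/C3S.lean`) are, with
`⊤_t = ¬(¬t·t)`, `⊥_t = t·¬t`, `u ∨ w = ¬(¬u·¬w)`:

* `(xy)z ≈ x(yz)`, `xy ≈ yx`, `xx ≈ x`, `1x ≈ x`, `¬¬x ≈ x`, `¬1 ≈ 1`;
* `⊤_x x ≈ x`, `⊤_{xy} ≈ ⊤_x ⊤_y`, `⊤_{⊤_x} ≈ ⊤_x`, `⊥_{xy} ≈ ⊥_x ⊥_y`, `⊥_{⊤_x} ≈ ⊥_x`;
* `¬(x⊤_y) · ¬(¬x⊤_y) ≈ ⊥_{xy}`;
* `x'(x' ∨ y') ≈ x'` for `x' = x⊤_{xy}`, `y' = y⊤_{xy}`;
* `x'(y' ∨ z') ≈ x'y' ∨ x'z'` for `x' = x⊤_{xyz}`, `y' = y⊤_{xyz}`, `z' = z⊤_{xyz}`.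

Idea: in an algebra `M` satisfying these identities the elements `z` with `⊤_z = T` form a Boolean
algebra.  A prime filter `q` of it yields a map from the subalgebra of the elements `a` with
`⊤_a T = T` to `C₃ˢ`: `a` is sent to `1` if `⊥_a T ∈ q`, otherwise to `c` or `¬c` according to
whether `a T ∈ q` or not; the identities say that it is a homomorphism.  If `s ≈ t` holds in `C₃ˢ`,
the two sides contain the same variables, so their values are in one fibre, where they are not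
separated by any `q`.
-/

set_option autoImplicit false

namespace Pool.Agent.Results.MP_7f507d_al.FiniteBasis

open Pool.Agent.Q116.C3S

universe u

/-- The 14 identities of `basis` are an equational basis of the variety generated by `C₃ˢ`: an
identity is derivable from them in equational logic if and only if it holds in `C₃ˢ`; equivalently,
an algebra of type `(·, ¬, 1)` satisfies them if and only if it satisfies all identities of
`C₃ˢ`. -/
theorem result :
    (∀ s t : Tm, Deriv {e | e ∈ basis} s t ↔ Sat C3 (s, t)) ∧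
    ∀ (A : Type u) (M : Alg A),
      (∀ e ∈ basis, Sat M e) ↔ ∀ e : Tm × Tm, Sat C3 e → Sat M e :=
  ⟨deriv_iff, fun _ M => ⟨fun hM e he => complete M hM e he,
    fun h e he => h e (basis_sat e he)⟩⟩

end Pool.Agent.Results.MP_7f507d_al.FiniteBasis
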